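import Pool.Agent.R317.TropC

set_option autoImplicit false

/-!
# Unbounded solutions of `x_{n+1} = x_n / (C x_{n-1} + x_{n-2})`

For every `C > 0` the recursion has an unbounded positive solution.
-/

namespace Pool.Agent.Results.MP_2553b2_an.Unbounded

/-- here `x n` is the term `x_{n-2}` of the problem -/
theorem result (C : ℝ) (hC : 0 < C) :
    ∃ x : ℕ → ℝ, (∀ n, 0 < x n) ∧ (∀ n, x (n + 3) = x (n + 2) / (C * x (n + 1) + x n)) ∧
      ¬ BddAbove (Set.range x) :=
  Pool.Agent.R317.TropC.main C hC

end Pool.Agent.Results.MP_2553b2_an.Unbounded
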